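import Pool.Agent.V11257.Cb3

/-!
# Compact metrizable spaces in the Cantor-cube permutation model are separable

The permutation group of the model is `GG = ∏ n, Homeo (2 ^ ω)`, and `Fix m` is the group of its
elements that fix all atoms of `A₀, …, Aₘ₋₁`. A set `X` of the model with support in
`A₀ ∪ … ∪ Aₖ₋₁` is a set on which `Fix k` acts, and every element of `X` is fixed by `Fix m` for
some `m` (`Elts`); subsets of `X`, families of subsets of `X`, metrics on `X` and functions on `X`
belong to the model if and only if (they consist of elements of the model and) they are fixed by
`Fix m` for some `m`.

The proof: a metric on `X` that is in the model is invariant under some `Fix m`, and `X` is totally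
bounded, since the balls form an open cover in the model. So for `j ≥ m` the group of the
homeomorphisms of the Cantor cube, acting on the atoms in `Aⱼ`, acts on `X` by isometries. Every
action by isometries of this group on a totally bounded metric space is trivial (`triv`). So all
elements of `X` are fixed by `Fix m`.
-/

namespace Pool.Agent.Results.MP_0aaa5a_lc.CompactMetrizableSeparable

open Pool.Agent.V11257CB

/-- Every metric space `X` of the Cantor-cube permutation model that is compact in the model is
separable in the model. Moreover, for some `m` all its elements are fixed by all permutations in
`Fix k` that fix the atoms of the first `m` copies of the Cantor cube. -/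
theorem result {k : ℕ} {X : Type*} [MetricSpace X] [MulAction (V11257CB.Fix k) X]
    (hE : Elts (k := k) X) (hM : MetN k X) (hC : CompactN k X) :
    SeparableN k X ∧ ∃ m, ∀ g : V11257CB.Fix k, (g : GG) ∈ V11257CB.Fix m → ∀ x : X, g • x = x :=
  ⟨separable hE hM hC, fixed hE hM hC⟩

end Pool.Agent.Results.MP_0aaa5a_lc.CompactMetrizableSeparable
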